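import Pool.Agent.Q207.UR.NR

open Q207.UR in
/-- There is a model of `ZFU_R` + Collection in which an instance of RP fails. -/
theorem Pool.Agent.Results.MP_b1de93_lc.Disproof.result :
    ∃ (V : Type 1) (S : UStr V), ZFU S ∧ Coll S ∧ ¬ RP S :=
  ⟨VN, NN, zfu, coll, not_rp⟩
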